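import Pool.Agent.D0H52.QH.Weak

/-!
# The weak conjecture and the cubic twists `x³ + y³ = D` with `3 ∣ D`

`C_D : y² = x³ - 432 D²` is the cubic twist `x³ + y³ = D`, it is `3`-isogenous to
`E_D : y² + D y = x³`. `D` runs over the cube-free multiples of three with `v_3(D) - 1` prime factors
`≡ 2` modulo `3` (any number of prime factors `≡ 1` modulo `3`), that is `D = 3 d` without such prime
factors and `D = 9 d` with one of them.

* The open implication: if `Ш(E_D/ℚ)[3^∞] = 0` and `L(C_D, 1) = 0` then `C_D(ℚ)` is infinite, for all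
  these `D` without exception.
* `E_D(ℚ)` is finite and `Ш(E_D/ℚ)[3^∞] = 0` if and only if `D` does not split, a condition on cubic
  residues between the prime factors of `D`. In this case both sides of the conjecture are false:
  `L(C_D, 1) ≠ 0` and `C_D(ℚ)` is finite.
* For both valuations, and together, the proportion of these `D` (among the `D` that are squarefree
  outside `3`, ordered by size) tends exactly to `∏_{i ≥ 1} (1 - 3^{-i}) = 0.5601...`.

Joint work of about ten agents, see the header of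
`Pool/Agent/Results/MP_696deb_nt/CubicTwistsDivisibleByThree.lean`.
-/

set_option autoImplicit false

open scoped Classical

namespace Pool.Agent.Results.MP_8b7eba_nt.MultiplesOfThree

/-- `f` is entire and equal to the product over the primes `p ∤ 2 (4 A³ + 27 B²)` of the Euler factors of
`y² = x³ + A x + B`, as in the frozen statement -/
def IsLFunction (A B : ℤ) (f : ℂ → ℂ) : Prop :=
  Differentiable ℂ f ∧
    ∀ s : ℂ, (3 : ℝ) / 2 < s.re →
      HasProd
        (fun p : {p : ℕ // p.Prime ∧ ¬ ((p : ℤ) ∣ 2 * (4 * A ^ 3 + 27 * B ^ 2))} =>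
          ((1 : ℂ)
            - ((((p.1 : ℤ) - (Nat.card {q : ZMod p.1 × ZMod p.1 //
                  q.2 ^ 2 = q.1 ^ 3 + (A : ZMod p.1) * q.1 + (B : ZMod p.1)} : ℤ)) : ℤ) : ℂ)
                * ((p.1 : ℂ) ^ (-s))
            + (p.1 : ℂ) ^ (1 - 2 * s))⁻¹)
        (f s)

/-- the rational points of `y² = x³ + A x + B`, as in the frozen statement -/
def Points (A B : ℤ) : Set (ℚ × ℚ) := {q : ℚ × ℚ | q.2 ^ 2 = q.1 ^ 3 + (A : ℚ) * q.1 + (B : ℚ)}

/-- the class: `D ≠ 3` is divisible by `3` and by no cube of a prime number, and exactly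
`v_3(D) - 1` of its prime factors are congruent to `2` modulo `3` -/
def Class (D : ℕ) : Prop :=
  3 ∣ D ∧ D ≠ 3 ∧ (∀ p : ℕ, p.Prime → ¬ p ^ 3 ∣ D) ∧
    (D.primeFactors.filter fun p => p % 3 = 2).card + 1 = padicValNat 3 D

/-- no square of a prime number `≠ 3` divides `D` -/
def Tame (D : ℕ) : Prop := ∀ p : ℕ, p.Prime → p ≠ 3 → ¬ p ^ 2 ∣ D

/-- `D` is not a product `d₀ d₁ d₂` of coprime factors, at least two of them different from `1`,
such that `d₁ d₂²`, `d₂ d₀²`, `d₀ d₁²` are cubes modulo the primes `≠ 3` dividing `d₀`, `d₁`, `d₂`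
and, if `9 ∣ D`, the one that belongs to the factor divisible by `3` is a cube modulo `9` -/
def NoSplit (D : ℕ) : Prop :=
  ∀ d : ZMod 3 → ℕ, ∏ c, d c = D → (∀ c c', c ≠ c' → Nat.Coprime (d c) (d c')) →
    (∀ (c : ZMod 3) (p : ℕ), p.Prime → p ∣ d c → (p = 3 → 9 ∣ D) →
      ∃ x : ℤ, ((if p = 3 then 9 else p : ℕ) : ℤ) ∣ (d (c + 1) : ℤ) * (d (c + 2) : ℤ) ^ 2 - x ^ 3) →
    ∃ c, ∀ c', c' ≠ c → d c' = 1

/-- the curve `y² + D y = x³` over `ℚ` -/
def E (D : ℕ) : WeierstrassCurve ℚ := { a₁ := 0, a₂ := 0, a₃ := (D : ℚ), a₄ := 0, a₆ := 0 }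

/-- `Ш(E_D/ℚ)[3^∞] = 0` -/
def NoSha (D : ℕ) : Prop :=
  ∀ (n : ℕ) (x : Pool.Agent.TH841.SH.D.Sha (E D)), 3 ^ n • x = 0 → x = 0

theorem E_eq (D : ℕ) : Pool.Agent.Y703.CT.EQ (Pool.Agent.Y703.CT.WD D) = E D := by
  unfold Pool.Agent.Y703.CT.EQ Pool.Agent.Y703.CT.WD E WeierstrassCurve.map
  simp

theorem three_iff (D : ℕ) :
    (Finite (E D).toAffine.Point ∧ NoSha D) ↔ Pool.Agent.Y703.CT.Triv3 D := by
  unfold NoSha Pool.Agent.Y703.CT.Triv3
  rw [E_eq]

theorem result :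
    (∀ D : ℕ, Class D → NoSha D → ∀ f, IsLFunction 0 (-432 * (D : ℤ) ^ 2) f → f 1 = 0 →
      (Points 0 (-432 * (D : ℤ) ^ 2)).Infinite) ∧
    (∀ D : ℕ, Class D → (Finite (E D).toAffine.Point ∧ NoSha D ↔ NoSplit D)) ∧
    (∀ D : ℕ, Class D → NoSplit D → (∃ f, IsLFunction 0 (-432 * (D : ℤ) ^ 2) f) ∧
      (∀ f, IsLFunction 0 (-432 * (D : ℤ) ^ 2) f → f 1 ≠ 0) ∧
      (Points 0 (-432 * (D : ℤ) ^ 2)).Finite) ∧
    ∀ K : Set ℕ, 1 ∈ K ∨ 2 ∈ K →
      Filter.Tendsto (fun X : ℕ =>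
        (((Finset.Icc 1 X).filter fun D =>
          (Class D ∧ Tame D ∧ padicValNat 3 D ∈ K) ∧ NoSplit D).card : ℝ) /
        (((Finset.Icc 1 X).filter fun D =>
          Class D ∧ Tame D ∧ padicValNat 3 D ∈ K).card : ℝ)) Filter.atTop
        (nhds (∏' i : ℕ, (1 - (1 / 3 : ℝ) ^ (i + 1)))) ∧
      ∃ (a : ℝ) (X₁ : ℕ), 0 < a ∧ ∀ X : ℕ, X₁ ≤ X → a * (X / √(Real.log X)) ≤
        (((Finset.Icc 1 X).filter fun D =>
          (Class D ∧ Tame D ∧ padicValNat 3 D ∈ K) ∧ NoSplit D).card : ℝ) := by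
  have hcr : ∀ D : ℕ, Class D → (Finite (E D).toAffine.Point ∧ NoSha D ↔ NoSplit D) := fun D hC =>
    (three_iff D).trans (Pool.Agent.D0H52.QH.crit hC)
  refine ⟨?_, hcr, ?_, fun K hK => ⟨?_, ?_⟩⟩
  · intro D hC hS f hf hf1 hfin
    have hT : Pool.Agent.Y703.CT.Triv3 D := (three_iff D).1 ⟨by
      rw [← E_eq]
      exact Pool.Agent.D0H52.QH.fin_back (Pool.Agent.D0H52.QH.cls_ne hC) hfin, hS⟩
    exact (Pool.Agent.D0H52.QH.weak hC hT).2.1 f hf hf1
  · intro D hC hN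
    exact Pool.Agent.D0H52.QH.weak hC ((three_iff D).1 ((hcr D hC).2 hN))
  · have h := Pool.Agent.D0H52.QH.den K hK
    have e1 : ∀ X : ℕ, Pool.Agent.D0H52.QH.cnt K Pool.Agent.Y703.CT.Triv3 X =
        ((Finset.Icc 1 X).filter fun D =>
          (Class D ∧ Tame D ∧ padicValNat 3 D ∈ K) ∧ NoSplit D).card := fun X =>
      Pool.Agent.D0H52.QH.fcc fun D => and_congr_right fun hC => Pool.Agent.D0H52.QH.crit hC.1
    have e2 : ∀ X : ℕ, Pool.Agent.D0H52.QH.cnt K (fun _ => True) X =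
        ((Finset.Icc 1 X).filter fun D => Class D ∧ Tame D ∧ padicValNat 3 D ∈ K).card := fun X =>
      Pool.Agent.D0H52.QH.fcc fun D => iff_of_eq (and_true _)
    simp only [e1, e2] at h
    exact h
  · obtain ⟨a, X₁, ha, h⟩ := Pool.Agent.D0H52.QH.low K hK
    refine ⟨a, X₁, ha, fun X hX => (h X hX).trans (le_of_eq ?_)⟩
    exact congrArg Nat.cast (Pool.Agent.D0H52.QH.fcc fun D =>
      and_congr_right fun hC => Pool.Agent.D0H52.QH.crit hC.1)

end Pool.Agent.Results.MP_8b7eba_nt.MultiplesOfThree
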